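import Pool.Agent.H694R3.Br3

set_option autoImplicit false

namespace Pool.Agent.Results.MP_699bc8_an.BridgeTheorem

open Filter Set Topology

universe u v w

/-- A left action of the monoid `S` on `K` by continuous endomorphisms:
`act 1 = id` and `act (s * t) = act s ∘ act t`. -/
structure EndoAction (S : Type v) (K : Type u) [Monoid S] [CommGroup K] [TopologicalSpace K] where
  act : S → K →ₜ* K
  act_one : ∀ x, act 1 x = x
  act_mul : ∀ s t x, act (s * t) x = act s (act t x)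

/-- `𝒰` is a finite open cover of `K`. -/
def IsFinOpenCover {K : Type u} [TopologicalSpace K] (𝒰 : Set (Set K)) : Prop :=
  𝒰.Finite ∧ (∀ U ∈ 𝒰, IsOpen U) ∧ ⋃₀ 𝒰 = univ

/-- `N(𝒲)`: the least size of a finite subcover of `𝒲`. -/
noncomputable def coverNumber {K : Type u} (𝒲 : Set (Set K)) : ℕ :=
  sInf {n | ∃ 𝒱 : Finset (Set K), (∀ W ∈ 𝒱, W ∈ 𝒲) ∧ ⋃₀ (𝒱 : Set (Set K)) = univ ∧ 𝒱.card = n}

section

variable {S : Type v} {K : Type u} [Monoid S] [CommGroup K] [TopologicalSpace K]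

/-- `𝒰_F`, the join of the covers `γ(s)⁻¹(𝒰)`, `s ∈ F`. -/
def join (γ : EndoAction S K) (𝒰 : Set (Set K)) (F : Finset S) : Set (Set K) :=
  {W | ∃ c : S → Set K, (∀ s ∈ F, c s ∈ 𝒰) ∧ W = ⋂ s ∈ F, (γ.act s) ⁻¹' (c s)}

/-- `T_F(X)`: all products over `s ∈ F` of characters `x_s ∘ γ(s)` with `x_s ∈ X`
(the dual group is written multiplicatively). -/
def traj (γ : EndoAction S K) (X : Finset (K →ₜ* Circle)) (F : Finset S) : Set (K →ₜ* Circle) :=
  {χ | ∃ x : S → (K →ₜ* Circle), (∀ s ∈ F, x s ∈ X) ∧ χ = ∏ s ∈ F, (x s).comp (γ.act s)}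

/-- `log N(𝒰_F) / |F|` -/
noncomputable def topRate (γ : EndoAction S K) (𝒰 : Set (Set K)) (F : Finset S) : ℝ :=
  Real.log (coverNumber (join γ 𝒰 F)) / F.card

/-- `log |T_F(X)| / |F|` -/
noncomputable def algRate (γ : EndoAction S K) (X : Finset (K →ₜ* Circle)) (F : Finset S) : ℝ :=
  Real.log ((traj γ X F).ncard) / F.card

/-- the finite open covers of `K` -/
abbrev Cov (K : Type u) [TopologicalSpace K] := {𝒰 : Set (Set K) // IsFinOpenCover 𝒰}

/-- the nonempty finite sets of characters of `K` -/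
abbrev NFin (K : Type u) [CommGroup K] [TopologicalSpace K] :=
  {X : Finset (K →ₜ* Circle) // X.Nonempty}

end

section proofs

variable {S : Type v} {K : Type u} [Monoid S] [CommGroup K] [TopologicalSpace K]
  [IsTopologicalGroup K] [CompactSpace K]

theorem traj_finite (γ : EndoAction S K) (X : Finset (K →ₜ* Circle)) (F : Finset S) :
    (traj γ X F).Finite := by
  classical
  apply ((F.pi (fun _ => X)).image
    (fun g => ∏ s ∈ F.attach, (g s.1 s.2).comp (γ.act s.1))).finite_toSet.subset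
  rintro χ ⟨x, hx, rfl⟩
  rw [Finset.mem_coe, Finset.mem_image]
  refine ⟨fun s _ => x s, ?_, ?_⟩
  · rw [Finset.mem_pi]
    exact hx
  · exact Finset.prod_attach F (fun s => (x s).comp (γ.act s))

theorem prod_apply (γ : EndoAction S K) (x : S → (K →ₜ* Circle)) (F : Finset S) (y : K) :
    (∏ s ∈ F, (x s).comp (γ.act s)) y = ∏ s ∈ F, x s (γ.act s y) := by
  classical
  induction F using Finset.induction_on with
  | empty => simp
  | insert a s ha ih =>
    rw [Finset.prod_insert ha, Finset.prod_insert ha, ← ih]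
    rfl

theorem haar_exists : ∃ (_ : MeasurableSpace K) (_ : BorelSpace K) (μ : MeasureTheory.Measure K),
    μ.IsHaarMeasure ∧ MeasureTheory.IsProbabilityMeasure μ := by
  letI : MeasurableSpace K := borel K
  have : BorelSpace K := ⟨rfl⟩
  let K0 : TopologicalSpace.PositiveCompacts K := ⊤
  refine ⟨inferInstance, this, MeasureTheory.Measure.haarMeasure K0, inferInstance, ⟨?_⟩⟩
  have := MeasureTheory.Measure.haarMeasure_self (K₀ := K0)
  exact this

theorem traj_card_pos (γ : EndoAction S K) (X : NFin K) (F : Finset S) :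
    0 < (traj γ X.1 F).ncard := by
  rw [Set.ncard_pos (traj_finite γ X.1 F)]
  obtain ⟨x, hx⟩ := X.2
  exact ⟨_, fun _ => x, fun _ _ => hx, rfl⟩

theorem cover_set_nonempty [T2Space K] (γ : EndoAction S K) (𝒰 : Cov K) (F : Finset S) :
    {n | ∃ 𝒱 : Finset (Set K), (∀ W ∈ 𝒱, W ∈ join γ 𝒰.1 F) ∧ ⋃₀ (𝒱 : Set (Set K)) = univ ∧
      𝒱.card = n}.Nonempty := by
  obtain ⟨_, _, μ, h1, h2⟩ := haar_exists (K := K)
  obtain ⟨X, hX, h⟩ := Pool.Agent.H694R3.Bridge.cover_upper.{u, v} μ 𝒰.2.2.1 𝒰.2.2.2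
    (κ := 1) one_pos
  obtain ⟨𝒱, h3, h4, _⟩ := h γ.act F (traj_finite γ X F).toFinset (by
    intro x hx
    refine ⟨∏ s ∈ F, (x s).comp (γ.act s), ?_, fun y => prod_apply γ x F y⟩
    rw [Set.Finite.mem_toFinset]
    exact ⟨x, hx, rfl⟩)
  exact ⟨_, 𝒱, h3, h4, rfl⟩

theorem coverNumber_pos [T2Space K] (γ : EndoAction S K) (𝒰 : Cov K) (F : Finset S) :
    0 < coverNumber (join γ 𝒰.1 F) := by
  obtain ⟨𝒱, h1, h2, h3⟩ := Nat.sInf_mem (cover_set_nonempty γ 𝒰 F)
  unfold coverNumber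
  rw [← h3]
  rw [Finset.card_pos]
  have h4 : (1 : K) ∈ ⋃₀ (𝒱 : Set (Set K)) := by rw [h2]; trivial
  obtain ⟨W, hW, _⟩ := h4
  exact ⟨W, hW⟩

/-- first comparison of rates -/
theorem algRate_le [T2Space K] (X : NFin K) {κ : ℝ} (hκ : 0 < κ) :
    ∃ 𝒰 : Cov K, ∀ (γ : EndoAction S K) (F : Finset S), F.Nonempty →
      algRate γ X.1 F ≤ topRate γ 𝒰.1 F + κ := by
  obtain ⟨_, _, μ, h1, h2⟩ := haar_exists (K := K)
  obtain ⟨𝒰, hfin, hop, hcov, h⟩ := Pool.Agent.H694R3.Bridge.cover_lower.{u, v} μ X.1 hκ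
  refine ⟨⟨𝒰, hfin, hop, hcov⟩, ?_⟩
  intro γ F hF
  obtain ⟨𝒱, h3, h4, h5⟩ := Nat.sInf_mem (cover_set_nonempty γ ⟨𝒰, hfin, hop, hcov⟩ F)
  have h6 := h γ.act F (traj_finite γ X.1 F).toFinset (by
    intro χ hχ
    rw [Set.Finite.mem_toFinset] at hχ
    obtain ⟨x, hx, rfl⟩ := hχ
    exact ⟨x, hx, fun y => prod_apply γ x F y⟩) 𝒱 (fun W hW => h3 W hW) h4
  have hT : ((traj_finite γ X.1 F).toFinset.card : ℝ) = ((traj γ X.1 F).ncard : ℝ) := by
    rw [Set.ncard_eq_toFinset_card _ (traj_finite γ X.1 F)]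
  have hN : (𝒱.card : ℝ) = (coverNumber (join γ 𝒰 F) : ℝ) := by
    rw [h5]; rfl
  rw [hT, hN] at h6
  have hTpos : (0 : ℝ) < (traj γ X.1 F).ncard := by exact_mod_cast traj_card_pos γ X F
  have hNpos : (0 : ℝ) < coverNumber (join γ 𝒰 F) := by
    exact_mod_cast coverNumber_pos γ ⟨𝒰, hfin, hop, hcov⟩ F
  have hFpos : (0 : ℝ) < F.card := by exact_mod_cast hF.card_pos
  have h7 : Real.log ((traj γ X.1 F).ncard) ≤ Real.log (coverNumber (join γ 𝒰 F)) + κ * F.card := by
    calc Real.log ((traj γ X.1 F).ncard)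
        ≤ Real.log (coverNumber (join γ 𝒰 F) * Real.exp κ ^ F.card) := Real.log_le_log hTpos h6
      _ = Real.log (coverNumber (join γ 𝒰 F)) + κ * F.card := by
          rw [Real.log_mul hNpos.ne' (by positivity), Real.log_pow, Real.log_exp, mul_comm κ]
  unfold algRate topRate
  rw [div_add' _ _ _ hFpos.ne', div_le_div_iff_of_pos_right hFpos]
  exact h7

/-- second comparison of rates -/
theorem topRate_le [T2Space K] (𝒰 : Cov K) {κ : ℝ} (hκ : 0 < κ) :
    ∃ X : NFin K, ∀ (γ : EndoAction S K) (F : Finset S), F.Nonempty →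
      topRate γ 𝒰.1 F ≤ algRate γ X.1 F + κ := by
  obtain ⟨_, _, μ, h1, h2⟩ := haar_exists (K := K)
  obtain ⟨X, hX, h⟩ := Pool.Agent.H694R3.Bridge.cover_upper.{u, v} μ 𝒰.2.2.1 𝒰.2.2.2 hκ
  refine ⟨⟨X, hX⟩, ?_⟩
  intro γ F hF
  obtain ⟨𝒱, h3, h4, h6⟩ := h γ.act F (traj_finite γ X F).toFinset (by
    intro x hx
    refine ⟨∏ s ∈ F, (x s).comp (γ.act s), ?_, fun y => prod_apply γ x F y⟩
    rw [Set.Finite.mem_toFinset]
    exact ⟨x, hx, rfl⟩)
  have hT : ((traj_finite γ X F).toFinset.card : ℝ) = ((traj γ X F).ncard : ℝ) := by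
    rw [Set.ncard_eq_toFinset_card _ (traj_finite γ X F)]
  have hN : (coverNumber (join γ 𝒰.1 F) : ℝ) ≤ (𝒱.card : ℝ) := by
    have : coverNumber (join γ 𝒰.1 F) ≤ 𝒱.card := Nat.sInf_le ⟨𝒱, h3, h4, rfl⟩
    exact_mod_cast this
  rw [hT] at h6
  have hTpos : (0 : ℝ) < (traj γ X F).ncard := by exact_mod_cast traj_card_pos γ ⟨X, hX⟩ F
  have hNpos : (0 : ℝ) < coverNumber (join γ 𝒰.1 F) := by
    exact_mod_cast coverNumber_pos γ 𝒰 F
  have hFpos : (0 : ℝ) < F.card := by exact_mod_cast hF.card_pos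
  have h7 : Real.log (coverNumber (join γ 𝒰.1 F)) ≤ Real.log ((traj γ X F).ncard) + κ * F.card := by
    calc Real.log (coverNumber (join γ 𝒰.1 F))
        ≤ Real.log ((traj γ X F).ncard * Real.exp κ ^ F.card) :=
          Real.log_le_log hNpos (hN.trans h6)
      _ = Real.log ((traj γ X F).ncard) + κ * F.card := by
          rw [Real.log_mul hTpos.ne' (by positivity), Real.log_pow, Real.log_exp, mul_comm κ]
  unfold algRate topRate
  rw [div_add' _ _ _ hFpos.ne', div_le_div_iff_of_pos_right hFpos]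
  exact h7

/-- abstract comparison of suprema of upper and lower limits -/
theorem sup_le {ι : Type w} (l : Filter ι) [l.NeBot] {α β : Type*} (a : α → ι → ℝ) (b : β → ι → ℝ)
    (h : ∀ x : α, ∀ κ : ℝ, 0 < κ → ∃ y : β, ∀ i, a x i ≤ b y i + κ) :
    (⨆ x, limsup (fun i => ((a x i : ℝ) : EReal)) l) ≤ (⨆ y, limsup (fun i => ((b y i : ℝ) : EReal)) l) ∧
    (⨆ x, liminf (fun i => ((a x i : ℝ) : EReal)) l) ≤ (⨆ y, liminf (fun i => ((b y i : ℝ) : EReal)) l) := by
  constructor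
  · refine iSup_le fun x => ?_
    refine le_of_forall_gt fun c hc => ?_
    obtain ⟨c1, hc1, hc1'⟩ := EReal.lt_iff_exists_real_btwn.1 hc
    obtain ⟨c0, hc0, hc0'⟩ := EReal.lt_iff_exists_real_btwn.1 hc1
    have hκ : 0 < c1 - c0 := by
      have : c0 < c1 := by exact_mod_cast hc0'
      linarith
    obtain ⟨y, hy⟩ := h x (c1 - c0) hκ
    have h1 : limsup (fun i => ((b y i : ℝ) : EReal)) l < c0 :=
      lt_of_le_of_lt (le_iSup (fun y => limsup (fun i => ((b y i : ℝ) : EReal)) l) y) hc0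
    have h2 := eventually_lt_of_limsup_lt h1
    refine lt_of_le_of_lt ?_ hc1'
    refine limsup_le_of_le (h := ?_)
    filter_upwards [h2] with i hi
    have h3 : b y i < c0 := by exact_mod_cast hi
    have h4 := hy i
    have h5 : a x i ≤ c1 := by linarith
    exact_mod_cast h5
  · refine iSup_le fun x => ?_
    refine le_of_forall_gt fun c hc => ?_
    obtain ⟨c1, hc1, hc1'⟩ := EReal.lt_iff_exists_real_btwn.1 hc
    obtain ⟨c0, hc0, hc0'⟩ := EReal.lt_iff_exists_real_btwn.1 hc1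
    have hκ : 0 < c1 - c0 := by
      have : c0 < c1 := by exact_mod_cast hc0'
      linarith
    obtain ⟨y, hy⟩ := h x (c1 - c0) hκ
    have h1 : liminf (fun i => ((b y i : ℝ) : EReal)) l < c0 :=
      lt_of_le_of_lt (le_iSup (fun y => liminf (fun i => ((b y i : ℝ) : EReal)) l) y) hc0
    have h2 := frequently_lt_of_liminf_lt (h := h1)
    refine lt_of_le_of_lt ?_ hc1'
    refine liminf_le_of_frequently_le (h2.mono ?_)
    intro i hi
    have h3 : b y i < c0 := by exact_mod_cast hi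
    have h4 := hy i
    have h5 : a x i ≤ c1 := by linarith
    exact_mod_cast h5

end proofs

/-- **Bridge Theorem** for monoid actions on compact abelian groups. For every monoid `S` (in
particular every cancellative left amenable monoid), every compact Hausdorff abelian group `K`, every
left action `γ` of `S` on `K` by continuous endomorphisms and every net `(F i)` of nonempty finite
subsets of `S` (in particular every left Folner net), the topological entropy of `γ` along the net is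
equal to the algebraic entropy of the dual action along the net; this holds with upper limits, with
lower limits, and with limits whenever they exist. -/
theorem result {S : Type v} [Monoid S] {K : Type u} [CommGroup K] [TopologicalSpace K]
    [IsTopologicalGroup K] [CompactSpace K] [T2Space K] (γ : EndoAction S K)
    {ι : Type w} (l : Filter ι) [l.NeBot] (F : ι → Finset S) (hF : ∀ i, (F i).Nonempty) :
    (⨆ 𝒰 : Cov K, limsup (fun i => ((topRate γ 𝒰.1 (F i) : ℝ) : EReal)) l) =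
      (⨆ X : NFin K, limsup (fun i => ((algRate γ X.1 (F i) : ℝ) : EReal)) l) ∧
    (⨆ 𝒰 : Cov K, liminf (fun i => ((topRate γ 𝒰.1 (F i) : ℝ) : EReal)) l) =
      (⨆ X : NFin K, liminf (fun i => ((algRate γ X.1 (F i) : ℝ) : EReal)) l) ∧
    ∀ (a : Cov K → ℝ) (b : NFin K → ℝ),
      (∀ 𝒰 : Cov K, Tendsto (fun i => topRate γ 𝒰.1 (F i)) l (𝓝 (a 𝒰))) →
      (∀ X : NFin K, Tendsto (fun i => algRate γ X.1 (F i)) l (𝓝 (b X))) →
      (⨆ 𝒰 : Cov K, ((a 𝒰 : ℝ) : EReal)) = ⨆ X : NFin K, ((b X : ℝ) : EReal) := by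
  have h1 := sup_le l (fun (𝒰 : Cov K) i => topRate γ 𝒰.1 (F i))
    (fun (X : NFin K) i => algRate γ X.1 (F i)) (by
      intro 𝒰 κ hκ
      obtain ⟨X, hX⟩ := topRate_le (S := S) 𝒰 hκ
      exact ⟨X, fun i => hX γ (F i) (hF i)⟩)
  have h2 := sup_le l (fun (X : NFin K) i => algRate γ X.1 (F i))
    (fun (𝒰 : Cov K) i => topRate γ 𝒰.1 (F i)) (by
      intro X κ hκ
      obtain ⟨𝒰, h𝒰⟩ := algRate_le (S := S) X hκ
      exact ⟨𝒰, fun i => h𝒰 γ (F i) (hF i)⟩)
  refine ⟨le_antisymm h1.1 h2.1, le_antisymm h1.2 h2.2, ?_⟩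
  intro a b ha hb
  have h3 : ∀ 𝒰 : Cov K, limsup (fun i => ((topRate γ 𝒰.1 (F i) : ℝ) : EReal)) l = a 𝒰 := by
    intro 𝒰
    exact ((continuous_coe_real_ereal.tendsto _).comp (ha 𝒰)).limsup_eq
  have h4 : ∀ X : NFin K, limsup (fun i => ((algRate γ X.1 (F i) : ℝ) : EReal)) l = b X := by
    intro X
    exact ((continuous_coe_real_ereal.tendsto _).comp (hb X)).limsup_eq
  have h5 := le_antisymm h1.1 h2.1
  simp only [h3, h4] at h5
  exact h5

end Pool.Agent.Results.MP_699bc8_an.BridgeTheorem
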